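import Pool.Agent.Helper382.FatCantor
set_option autoImplicit false
open MeasureTheory

namespace Pool.Agent.Results.MP_c09e54_an.BothInterior

/-- `A` and `B` are finitely equidecomposable under isometries of the line, with arbitrary
(not necessarily measurable) pieces. -/
def FinEquidec (A B : Set ℝ) : Prop :=
  ∃ (n : ℕ) (P : Fin n → Set ℝ) (f : Fin n → ℝ → ℝ),
    (∀ i, Isometry (f i)) ∧
    Pairwise (fun i j => Disjoint (P i) (P j)) ∧
    Pairwise (fun i j => Disjoint (f i '' P i) (f j '' P j)) ∧
    (⋃ i, P i) = A ∧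
    (⋃ i, f i '' P i) = B

/-- There are a bounded interval `A` and a bounded Borel set `B`, of equal Lebesgue measure and both with nonempty
interior, such that for all null sets `E₁`, `E₂` the sets `A \ E₁` and `B \ E₂` are not finitely equidecomposable,
not even with nonmeasurable pieces. -/
theorem result :
    ∃ (a b : ℝ) (B : Set ℝ), a < b ∧ MeasurableSet B ∧ Bornology.IsBounded B ∧
      (interior B).Nonempty ∧ volume (Set.Ioc a b) = volume B ∧
      ∀ E₁ E₂ : Set ℝ, volume E₁ = 0 → volume E₂ = 0 → ¬ FinEquidec (Set.Ioc a b \ E₁) (B \ E₂) := by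
  obtain ⟨C, hCc, hCsub, hCi, hCpos⟩ := Pool.Agent.H382FC.exists_fat_cantor
  have hCle : volume C ≤ 1 := by
    have := measure_mono (μ := (volume : Measure ℝ)) hCsub
    simpa using this
  have hCfin : volume C ≠ ⊤ := ne_top_of_le_ne_top ENNReal.one_ne_top hCle
  set c0 : ℝ := (volume C).toReal with hc0
  have h0 : 0 < c0 := ENNReal.toReal_pos hCpos.ne' hCfin
  have h1 : c0 ≤ 1 := by
    have := ENNReal.toReal_mono ENNReal.one_ne_top hCle
    simpa using this
  have hvol : volume (Set.Ioc (1 : ℝ) (2 + c0)) = volume (C ∪ Set.Ioc 1 2) := by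
    rw [measure_union _ measurableSet_Ioc]
    · rw [Real.volume_Ioc, Real.volume_Ioc]
      have : volume C = ENNReal.ofReal c0 := (ENNReal.ofReal_toReal hCfin).symm
      rw [this, ← ENNReal.ofReal_add h0.le (by norm_num)]
      congr 1
      ring
    · rw [Set.disjoint_left]
      intro y hy hy'
      linarith [(hCsub hy).2, hy'.1]
  refine ⟨1, 2 + c0, C ∪ Set.Ioc 1 2, by linarith, hCc.measurableSet.union measurableSet_Ioc,
    ((Metric.isBounded_Icc 0 1).subset hCsub).union (Metric.isBounded_Ioc 1 2), ?_, hvol, ?_⟩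
  · refine ⟨3/2, ?_⟩
    apply interior_mono (Set.subset_union_right)
    rw [interior_Ioc]
    constructor <;> norm_num
  · rintro E₁ E₂ hE1 - ⟨n, P, f, hf, -, hd, hP, hPB⟩
    exact Pool.Agent.H382FC.no_decomposition C hCc hCsub hCi c0 h0 h1 E₁ E₂ hE1 P f hf hd hP hPB

end Pool.Agent.Results.MP_c09e54_an.BothInterior
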